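import Pool.Agent.Lib.MP_3c6092_nt.SR.COP
import Pool.Agent.Lib.MP_3c6092_nt.LE.RDCg

/-!
# MP_3c6092_nt: for large `a` every `b < a` has at most one pair of exponents
-/

set_option autoImplicit false

namespace Pool.Agent.Lib.MP3c6092.UQ

open Finset Pool.Agent.Lib.MP3c6092

/-- the linear form is small -/
theorem lg {δ : ℝ} {a b m n : ℕ} (ha : 2 ≤ a) (hb : 1 ≤ b) (hη : (a : ℝ) ^ (-(δ * m)) ≤ 1 / 2)
    (h : |(a : ℝ) ^ m - (b : ℝ) ^ n| < (a : ℝ) ^ ((1 - δ) * m)) :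
    |(n : ℝ) * Real.log b - m * Real.log a| ≤ 2 * (a : ℝ) ^ (-(δ * m)) := by
  have ha0 : (0 : ℝ) < a := by exact_mod_cast (by omega : 0 < a)
  have hb0 : (0 : ℝ) < b := by exact_mod_cast (by omega : 0 < b)
  have hx : |(b : ℝ) ^ n / (a : ℝ) ^ m - 1| < (a : ℝ) ^ (-(δ * m)) := by
    have h1 : (b : ℝ) ^ n / (a : ℝ) ^ m - 1 = -((a : ℝ) ^ m - (b : ℝ) ^ n) / (a : ℝ) ^ m := by
      have : (a : ℝ) ^ m ≠ 0 := by positivity
      field_simp; ring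
    have h2 : (a : ℝ) ^ ((1 - δ) * m) = (a : ℝ) ^ (-(δ * m)) * (a : ℝ) ^ m := by
      rw [← Real.rpow_natCast (a : ℝ) m, ← Real.rpow_add ha0]
      congr 1; ring
    rw [h1, abs_div, abs_neg, abs_of_pos (by positivity : (0 : ℝ) < (a : ℝ) ^ m),
      div_lt_iff₀ (by positivity), ← h2]
    exact h
  have h3 := log_near (y := (b : ℝ) ^ n / (a : ℝ) ^ m) (by positivity) (by positivity) hη hx
  rw [Real.log_div (by positivity) (by positivity), Real.log_pow, Real.log_pow] at h3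
  exact h3

/-- `b ≥ 2` -/
theorem two_le_b {δ : ℝ} {a b m n : ℕ} (ha : 2 ≤ a) (hb : 1 ≤ b) (hm : 1 ≤ m)
    (hη : (a : ℝ) ^ (-(δ * m)) ≤ 1 / 2)
    (h : |(a : ℝ) ^ m - (b : ℝ) ^ n| < (a : ℝ) ^ ((1 - δ) * m)) : 2 ≤ b := by
  by_contra hc
  have hb1 : b = 1 := by omega
  subst hb1
  have ha0 : (0 : ℝ) < a := by exact_mod_cast (by omega : 0 < a)
  have ha2 : (2 : ℝ) ≤ a := by exact_mod_cast ha
  have h2 : (a : ℝ) ^ ((1 - δ) * m) = (a : ℝ) ^ (-(δ * m)) * (a : ℝ) ^ m := by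
    rw [← Real.rpow_natCast (a : ℝ) m, ← Real.rpow_add ha0]
    congr 1; ring
  rw [h2] at h
  have h3 : (2 : ℝ) ≤ (a : ℝ) ^ m := by
    calc (2 : ℝ) ≤ a := ha2
      _ = (a : ℝ) ^ 1 := (pow_one _).symm
      _ ≤ (a : ℝ) ^ m := pow_le_pow_right₀ (by linarith) hm
  have h4 : (a : ℝ) ^ (-(δ * m)) * (a : ℝ) ^ m ≤ 1 / 2 * (a : ℝ) ^ m :=
    mul_le_mul_of_nonneg_right hη (by positivity)
  have h5 := (abs_lt.mp h).2
  simp only [Nat.cast_one, one_pow] at h5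
  linarith

theorem core (δ : ℝ) (hδ : 0 < δ) : ∃ a₀ : ℕ, ∀ a b : ℕ, a₀ ≤ a → 1 ≤ b → b < a →
    ∀ m n m' n' : ℕ, 1 ≤ m → 1 ≤ m' → 1 ≤ n' → m ≤ m' →
      |(a : ℝ) ^ m - (b : ℝ) ^ n| < (a : ℝ) ^ ((1 - δ) * m) →
      a ^ m' ≠ b ^ n' → |(a : ℝ) ^ m' - (b : ℝ) ^ n'| < (a : ℝ) ^ ((1 - δ) * m') →
      m * n' = m' * n := by
  obtain ⟨k, hkdef⟩ : ∃ k : ℕ, k = ⌈1 / δ⌉₊ := ⟨_, rfl⟩
  have hk : 1 ≤ k := by
    rw [hkdef]
    exact Nat.one_le_iff_ne_zero.2 (Nat.ceil_pos.2 (by positivity)).ne'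
  have hk0 : (0 : ℝ) < k := by exact_mod_cast hk
  have hkδ' : 1 / δ ≤ k := by rw [hkdef]; exact Nat.le_ceil _
  have hkδ : 1 / (k : ℝ) ≤ δ := by
    have h1 := hkδ'
    rw [div_le_iff₀ hδ] at h1
    rw [div_le_iff₀ hk0]
    linarith
  obtain ⟨m0, hg⟩ := gelfond (2 * k) (2 * k) (by omega) (by omega)
  obtain ⟨T, hT⟩ : ∃ T : ℝ, T = (16 * (k : ℝ)) ^ 2 + 16 * k * (m0 + 1) + 32 * k + 4 := ⟨_, rfl⟩
  have hm00 : (0 : ℝ) ≤ m0 := Nat.cast_nonneg _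
  have hsq : 0 ≤ (16 * (k : ℝ)) ^ 2 := sq_nonneg _
  have hkm0 : 0 ≤ 16 * (k : ℝ) * m0 := by positivity
  have hT4 : 4 ≤ T := by rw [hT]; linarith
  have hT1 : 32 * (k : ℝ) ≤ T := by rw [hT]; linarith
  have hT2 : (16 * (k : ℝ)) ^ 2 ≤ T := by rw [hT]; linarith
  have hT3 : 16 * (k : ℝ) * m0 ≤ T := by rw [hT]; linarith
  clear hsq hkm0
  refine ⟨⌈T ^ (1 / δ)⌉₊ + 3, ?_⟩
  intro a b ha hb1 hba m n m' n' hm hm' hn' hmm hlt hne' hlt'
  have ha3 : 3 ≤ a := by omega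
  have ha3r : (3 : ℝ) ≤ a := by exact_mod_cast ha3
  have ha0 : (0 : ℝ) < a := by linarith
  have ha1 : (1 : ℝ) < a := by linarith
  have haT : T ≤ (a : ℝ) ^ δ := by
    have h1 : T ^ (1 / δ) ≤ a := by
      have h2 : ⌈T ^ (1 / δ)⌉₊ ≤ a := by omega
      exact (Nat.le_ceil _).trans (by exact_mod_cast h2)
    calc T = (T ^ (1 / δ)) ^ δ := by
          rw [← Real.rpow_mul (by linarith), one_div_mul_cancel hδ.ne', Real.rpow_one]
      _ ≤ (a : ℝ) ^ δ := Real.rpow_le_rpow (by positivity) h1 hδ.le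
  obtain ⟨v, hv⟩ : ∃ v : ℝ, v = (a : ℝ) ^ δ := ⟨_, rfl⟩
  rw [← hv] at haT
  have hv0 : 0 < v := by linarith
  -- the errors
  have herr : ∀ j : ℕ, 1 ≤ j → (a : ℝ) ^ (-(δ * j)) ≤ 1 / v := by
    intro j hj
    have hj1 : (1 : ℝ) ≤ j := by exact_mod_cast hj
    rw [hv, one_div, ← Real.rpow_neg ha0.le]
    apply Real.rpow_le_rpow_of_exponent_le ha1.le
    have : δ * 1 ≤ δ * j := mul_le_mul_of_nonneg_left hj1 hδ.le
    linarith
  have hvh : 1 / v ≤ 1 / 2 := by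
    rw [div_le_div_iff₀ hv0 (by norm_num)]; linarith
  have hb2 : 2 ≤ b := two_le_b (by omega) hb1 hm' ((herr m' hm').trans hvh) hlt'
  have hl := lg (by omega : 2 ≤ a) hb1 ((herr m hm).trans hvh) hlt
  have hl' := lg (by omega : 2 ≤ a) hb1 ((herr m' hm').trans hvh) hlt'
  have e1 := herr m hm
  have e2 := herr m' hm'
  obtain ⟨la, hla⟩ : ∃ la : ℝ, la = Real.log a := ⟨_, rfl⟩
  obtain ⟨lb, hlb⟩ : ∃ lb : ℝ, lb = Real.log b := ⟨_, rfl⟩
  rw [← hla, ← hlb] at hl hl'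
  have hla1 : 1 ≤ la := by
    rw [hla, Real.le_log_iff_exp_le ha0]
    have := Real.exp_one_lt_d9
    linarith
  have hlb2 : (1 / 2 : ℝ) ≤ lb := by
    have h1 : Real.log 2 ≤ lb := by
      rw [hlb]; exact Real.log_le_log (by norm_num) (by exact_mod_cast hb2)
    have := Real.log_two_gt_d9
    linarith
  by_contra hcon
  have hmr : (1 : ℝ) ≤ m := by exact_mod_cast hm
  have hmr' : (1 : ℝ) ≤ m' := by exact_mod_cast hm'
  have hmmr : (m : ℝ) ≤ m' := by exact_mod_cast hmm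
  have hn0 : (0 : ℝ) ≤ n := Nat.cast_nonneg _
  have hn0' : (0 : ℝ) ≤ n' := Nat.cast_nonneg _
  -- bounds for `n`, `n'`
  have hvh' : 2 * (1 / v) ≤ 1 := by linarith
  have hnle : (n : ℝ) ≤ 4 * m' * la := by
    have h1 : (n : ℝ) * lb - m * la ≤ 1 := by linarith [(abs_le.mp hl).2]
    have h2 : (n : ℝ) * (1 / 2) ≤ n * lb := mul_le_mul_of_nonneg_left hlb2 hn0
    have h3 : (m : ℝ) * la ≤ m' * la := mul_le_mul_of_nonneg_right hmmr (by linarith)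
    have h4 : (1 : ℝ) ≤ m' * la := one_le_mul_of_one_le_of_one_le hmr' hla1
    linarith
  have hnle' : (n' : ℝ) ≤ 4 * m' * la := by
    have h1 : (n' : ℝ) * lb - m' * la ≤ 1 := by linarith [(abs_le.mp hl').2]
    have h2 : (n' : ℝ) * (1 / 2) ≤ n' * lb := mul_le_mul_of_nonneg_left hlb2 hn0'
    have h4 : (1 : ℝ) ≤ m' * la := one_le_mul_of_one_le_of_one_le hmr' hla1
    linarith
  -- the gap
  have hgap : la ≤ 2 * (1 / v) * (n + n') := by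
    have h1 : ((m : ℝ) * n' - m' * n) * la = n * ((n' : ℝ) * lb - m' * la) - n' * ((n : ℝ) * lb - m * la) := by
      ring
    have h2 : |((m : ℝ) * n' - m' * n) * la| ≤ n * (2 * (1 / v)) + n' * (2 * (1 / v)) := by
      rw [h1]
      refine (abs_sub _ _).trans ?_
      rw [abs_mul, abs_mul, abs_of_nonneg hn0, abs_of_nonneg hn0']
      apply add_le_add
      · exact mul_le_mul_of_nonneg_left (hl'.trans (by linarith)) hn0
      · exact mul_le_mul_of_nonneg_left (hl.trans (by linarith)) hn0'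
    have h3 : (1 : ℝ) ≤ |(m : ℝ) * n' - m' * n| := by
      have h4 : ((m : ℤ) * n' - m' * n) ≠ 0 := by
        intro h
        apply hcon
        have : (m : ℤ) * n' = m' * n := by linarith
        exact_mod_cast this
      have h5 := Int.one_le_abs h4
      have h6 : ((1 : ℤ) : ℝ) ≤ ((|(m : ℤ) * n' - m' * n| : ℤ) : ℝ) := by exact_mod_cast h5
      push_cast at h6
      exact h6
    rw [abs_mul, abs_of_pos (by linarith : 0 < la)] at h2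
    have h7 : 1 * la ≤ |(m : ℝ) * n' - m' * n| * la := mul_le_mul_of_nonneg_right h3 (by linarith)
    have h8 : (n : ℝ) * (2 * (1 / v)) + n' * (2 * (1 / v)) = 2 * (1 / v) * (n + n') := by ring
    linarith
  have hm'v : v ≤ 16 * m' := by
    have h1 : la ≤ 2 * (1 / v) * (8 * m' * la) := by
      refine hgap.trans (mul_le_mul_of_nonneg_left (by linarith) (by positivity))
    have h2 : v * la ≤ 16 * m' * la := by
      calc v * la ≤ v * (2 * (1 / v) * (8 * m' * la)) := mul_le_mul_of_nonneg_left h1 hv0.le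
        _ = 16 * m' * la := by field_simp; ring
    exact le_of_mul_le_mul_right h2 (by linarith)
  -- reduction to coprime exponents
  have h2k : 2 * k ≤ m' := by
    have h1 : 32 * (k : ℝ) ≤ 16 * m' := hT1.trans (haT.trans hm'v)
    have h2 : ((2 * k : ℕ) : ℝ) ≤ m' := by push_cast; linarith
    exact_mod_cast h2
  have hlt'' : |(a : ℝ) ^ m' - (b : ℝ) ^ n'| < (a : ℝ) ^ ((1 - 1 / (k : ℝ)) * m') := by
    refine hlt'.trans_le (Real.rpow_le_rpow_of_exponent_le ha1.le ?_)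
    exact mul_le_mul_of_nonneg_right (by linarith) (by linarith)
  obtain ⟨g, p, q, hg1, hmg, hng, hkm, hq1, hcop, hbad⟩ :=
    LE.specRDCg k a b m' n' hk hb1 hba h2k hn' hne' hlt''
  have hp1 : 1 ≤ p := by
    rcases Nat.eq_zero_or_pos p with h | h
    · rw [h] at hkm; omega
    · exact h
  have hkp : (m' : ℝ) ≤ k * p := by exact_mod_cast hkm.le
  have hvp : v ≤ 16 * k * p := by
    calc v ≤ 16 * m' := hm'v
      _ ≤ 16 * (k * p) := by linarith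
      _ = 16 * k * p := by ring
  have hp16 : 16 * (k : ℝ) ≤ p := by
    have h1 : (16 * (k : ℝ)) * (16 * k) ≤ (16 * k) * p := by
      calc (16 * (k : ℝ)) * (16 * k) = (16 * (k : ℝ)) ^ 2 := by ring
        _ ≤ T := hT2
        _ ≤ v := haT
        _ ≤ _ := hvp
    exact le_of_mul_le_mul_left h1 (by positivity)
  have hpm0 : m0 ≤ p := by
    have h1 : (16 * (k : ℝ)) * m0 ≤ (16 * k) * p := hT3.trans (haT.trans hvp)
    have h2 := le_of_mul_le_mul_left h1 (by positivity : (0 : ℝ) < 16 * k)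
    exact_mod_cast h2
  have haA : a ≤ p ^ (2 * k) := by
    have h1 : v ≤ (p : ℝ) ^ 2 := by
      calc v ≤ 16 * k * p := hvp
        _ ≤ p * p := mul_le_mul_of_nonneg_right hp16 (Nat.cast_nonneg _)
        _ = (p : ℝ) ^ 2 := by ring
    have h2 : (a : ℝ) = v ^ (1 / δ) := by
      rw [hv, ← Real.rpow_mul ha0.le, mul_one_div_cancel hδ.ne', Real.rpow_one]
    have h3 : (a : ℝ) ≤ (p : ℝ) ^ (2 * k) := by
      have hp1r : (1 : ℝ) ≤ p := by exact_mod_cast hp1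
      calc (a : ℝ) = v ^ (1 / δ) := h2
        _ ≤ ((p : ℝ) ^ 2) ^ (1 / δ) := Real.rpow_le_rpow hv0.le h1 (by positivity)
        _ ≤ ((p : ℝ) ^ 2) ^ (k : ℝ) :=
            Real.rpow_le_rpow_of_exponent_le (one_le_pow₀ hp1r) hkδ'
        _ = (p : ℝ) ^ (2 * k) := by rw [Real.rpow_natCast, ← pow_mul]
    exact_mod_cast h3
  have h5 := hg p q a b hpm0 hcop hb2 hba haA (hbad.indep (by omega) hp1)
  have h6 := h5.trans_lt hbad.2
  have h7 := (Real.rpow_lt_rpow_left_iff ha1).mp h6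
  linarith

/-- two close pairs are proportional -/
theorem prop (δ : ℝ) (hδ : 0 < δ) : ∃ a₀ : ℕ, ∀ a b : ℕ, a₀ ≤ a → 1 ≤ b → b < a →
    ∀ m n m' n' : ℕ, 1 ≤ m → 1 ≤ n → 1 ≤ m' → 1 ≤ n' → a ^ m ≠ b ^ n → a ^ m' ≠ b ^ n' →
      |(a : ℝ) ^ m - (b : ℝ) ^ n| < (a : ℝ) ^ ((1 - δ) * m) →
      |(a : ℝ) ^ m' - (b : ℝ) ^ n'| < (a : ℝ) ^ ((1 - δ) * m') → m * n' = m' * n := by
  obtain ⟨a₀, h⟩ := core δ hδ
  refine ⟨a₀, ?_⟩
  intro a b ha hb hba m n m' n' hm hn hm' hn' hne hne' hlt hlt'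
  rcases le_total m m' with hmm | hmm
  · exact h a b ha hb hba m n m' n' hm hm' hn' hmm hlt hne' hlt'
  · exact (h a b ha hb hba m' n' m n hm' hm hn hmm hlt' hne hlt).symm

/-- Leech's inequality: at most one pair -/
theorem leech : ∃ a₀ : ℕ, ∀ a b : ℕ, a₀ ≤ a → 1 ≤ b → b < a →
    ∀ m n m' n' : ℕ, 3 ≤ m → 3 ≤ n → 3 ≤ m' → 3 ≤ n' → a ^ m ≠ b ^ n → a ^ m' ≠ b ^ n' →
      |(a : ℤ) ^ m - (b : ℤ) ^ n| ≤ (a : ℤ) - b → |(a : ℤ) ^ m' - (b : ℤ) ^ n'| ≤ (a : ℤ) - b →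
      m = m' ∧ n = n' := by
  obtain ⟨a₀, h⟩ := prop (1 / 2) (by norm_num)
  refine ⟨a₀, ?_⟩
  intro a b ha hb hba m n m' n' hm hn hm' hn' hne hne' hle hle'
  have ha1 : (1 : ℝ) ≤ a := by exact_mod_cast (by omega : 1 ≤ a)
  have hb1 : (1 : ℝ) ≤ b := by exact_mod_cast hb
  have hlt : ∀ i j : ℕ, 3 ≤ i → |(a : ℤ) ^ i - (b : ℤ) ^ j| ≤ (a : ℤ) - b →
      |(a : ℝ) ^ i - (b : ℝ) ^ j| < (a : ℝ) ^ ((1 - 1 / 2) * (i : ℝ)) := by
    intro i j hi h1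
    have h2 : |(a : ℝ) ^ i - (b : ℝ) ^ j| ≤ (a : ℝ) - b := by exact_mod_cast h1
    have hi2 : (3 : ℝ) ≤ i := by exact_mod_cast hi
    have h3 : (a : ℝ) ≤ (a : ℝ) ^ ((1 - 1 / 2) * (i : ℝ)) := by
      calc (a : ℝ) = (a : ℝ) ^ (1 : ℝ) := (Real.rpow_one _).symm
        _ ≤ _ := Real.rpow_le_rpow_of_exponent_le ha1 (by linarith)
    linarith
  have hmul := h a b ha hb hba m n m' n' (by omega) (by omega) (by omega) (by omega) hne hne'
    (hlt m n hm hle) (hlt m' n' hm' hle')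
  have hc := (SR.specCOP.1 a b m n hm hn ⟨hb, hba, hne, by exact_mod_cast hle⟩).1
  have hc' := (SR.specCOP.1 a b m' n' hm' hn' ⟨hb, hba, hne', by exact_mod_cast hle'⟩).1
  have d1 : m ∣ m' := hc.dvd_of_dvd_mul_right (Dvd.intro _ hmul)
  have d2 : m' ∣ m := hc'.dvd_of_dvd_mul_right (Dvd.intro _ hmul.symm)
  have hmm : m = m' := Nat.dvd_antisymm d1 d2
  refine ⟨hmm, ?_⟩
  rw [hmm] at hmul
  exact (Nat.eq_of_mul_eq_mul_left (by omega) hmul).symm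

end Pool.Agent.Lib.MP3c6092.UQ
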